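import Mathlib
import Pool.Agent.H266.FD4

/-!
# Exceptional measures with discrete spectrum, rigid exceptional measures, and periodic orbits

`A` is the weak closure of the set of the finitely supported probability measures on `R/Z` which are
invariant under `x ↦ 2 x` and `x ↦ 3 x`.  It contains Lebesgue measure; whether it contains every
invariant measure is not known.  We show that Furstenberg's conjecture for the measures of `A` with
discrete spectrum, for the rigid measures of `A`, and for the measures of `A` whose Fourier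
coefficients of nonzero index come arbitrarily close to absolute value one, are all equivalent to a
statement on finite orbits: the mean distance to `0` of the nonzero finite orbits is bounded below.
If this fails then a generic measure of `A` is atomless, different from Lebesgue measure, and rigid.
-/

set_option autoImplicit false

open MeasureTheory Filter Topology

namespace Pool.Agent.Results.MP_e27144_an.DiscreteSpectrum

/-- `μ` is invariant under multiplication by `2` and by `3`. -/
def Invariant (μ : Measure UnitAddCircle) : Prop :=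
  MeasurePreserving (fun x : UnitAddCircle => 2 • x) μ μ ∧
    MeasurePreserving (fun x : UnitAddCircle => 3 • x) μ μ

/-- The invariant probability measures with finite support. -/
def FinitelySupported : Set (ProbabilityMeasure UnitAddCircle) :=
  {ν | Invariant (ν : Measure UnitAddCircle) ∧
    ∃ S : Set UnitAddCircle, S.Finite ∧ (ν : Measure UnitAddCircle) Sᶜ = 0}

/-- The space `A`: the weak closure of the finitely supported invariant probability measures. -/
abbrev Approximable : Type :=
  {μ : ProbabilityMeasure UnitAddCircle // μ ∈ closure FinitelySupported}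

/-- `μ` has no atoms. -/
def Atomless (μ : Measure UnitAddCircle) : Prop := ∀ x, μ {x} = 0

/-- `x` is periodic under both maps: `2 ^ N x = x` and `3 ^ M x = x` with `N, M ≥ 1`. -/
def Periodic (x : UnitAddCircle) (N M : ℕ) : Prop :=
  1 ≤ N ∧ 1 ≤ M ∧ (2 ^ N) • x = x ∧ (3 ^ M) • x = x

/-- The average of `f` over the (finite) orbit of a periodic point `x`. -/
noncomputable def orbitAverage (x : UnitAddCircle) (N M : ℕ) (f : UnitAddCircle → ℝ) : ℝ :=
  ((N : ℝ) * M)⁻¹ * ∑ i ∈ Finset.range N, ∑ j ∈ Finset.range M, f ((2 ^ i * 3 ^ j) • x)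

/-- Discrete spectrum (the system is compact, in the terminology of Furstenberg): the orbit of every
square integrable function under the maps `x ↦ 2 ^ i 3 ^ j x` is totally bounded in `L²(μ)`. -/
def HasDiscreteSpectrum (μ : Measure UnitAddCircle) : Prop :=
  ∀ f : UnitAddCircle → ℂ, MemLp f 2 μ → ∀ ε : ℝ, 0 < ε → ∃ S : Finset (ℕ × ℕ), ∀ i j : ℕ, ∃ s ∈ S,
    eLpNorm (fun x => f ((2 ^ i * 3 ^ j) • x) - f ((2 ^ s.1 * 3 ^ s.2) • x)) 2 μ ≤
      ENNReal.ofReal ε

/-- Rational discrete spectrum: the square integrable functions `h` which are periodic, that is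
`h (2 ^ N x) = h x = h (3 ^ N x)` almost everywhere for some `N ≥ 1`, are dense in `L²(μ)`. -/
def HasRationalSpectrum (μ : Measure UnitAddCircle) : Prop :=
  ∀ f : UnitAddCircle → ℂ, MemLp f 2 μ → ∀ ε : ℝ, 0 < ε → ∃ (N : ℕ) (h : UnitAddCircle → ℂ),
    1 ≤ N ∧ MemLp h 2 μ ∧ (∀ᵐ x ∂μ, h ((2 ^ N) • x) = h x) ∧ (∀ᵐ x ∂μ, h ((3 ^ N) • x) = h x) ∧
      eLpNorm (fun x => f x - h x) 2 μ ≤ ENNReal.ofReal ε

/-- Rigidity: there are multipliers `m = 2 ^ i 3 ^ j > 1` for which `x ↦ m x` is arbitrarily close to
the identity in the mean. -/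
def Rigid (μ : Measure UnitAddCircle) : Prop := ∀ ε : ℝ, 0 < ε → ∃ i j : ℕ, 1 < 2 ^ i * 3 ^ j ∧
  ∫ x, ‖(2 ^ i * 3 ^ j) • x - x‖ ∂μ ≤ ε

/-- Rigidity along the powers of `2` and of `3` with common exponents `n → ∞`. -/
def StronglyRigid (μ : Measure UnitAddCircle) : Prop := ∀ (ε : ℝ) (L : ℕ), 0 < ε → ∃ n : ℕ, L ≤ n ∧
  ∫ x, ‖(2 ^ n) • x - x‖ ∂μ ≤ ε ∧ ∫ x, ‖(3 ^ n) • x - x‖ ∂μ ≤ ε

/-- The supremum of the absolute values of the Fourier coefficients of nonzero index is one. -/
def LargeCoefficients (μ : Measure UnitAddCircle) : Prop := ∀ ε : ℝ, 0 < ε → ∃ k : ℕ, 1 ≤ k ∧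
  1 - ε ≤ ‖∫ x, (fourier k x : ℂ) ∂μ‖

/-- **Periodic orbits, discrete spectrum and rigidity.**  Let `A` be the weak closure of the finitely
supported `×2, ×3`-invariant probability measures on `R/Z`.  The following are equivalent:
(1) there are periodic points `x ≠ 0` whose orbits have arbitrarily small mean distance to `0`;
(2) some atomless measure in `A` has rational discrete spectrum;
(3) some atomless measure in `A` has discrete spectrum;
(4) some atomless measure in `A` is rigid;
(5) the Fourier coefficients of nonzero index of some atomless measure in `A` have supremum one in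
absolute value;
(6) the measures in `A` which are atomless, different from Lebesgue measure and rigid along a common
sequence of powers of `2` and of `3` form a residual subset of `A`. -/
theorem result : List.TFAE [
    (∀ ε : ℝ, 0 < ε → ∃ (x : UnitAddCircle) (N M : ℕ), Periodic x N M ∧ x ≠ 0 ∧
      orbitAverage x N M (fun y => ‖y‖) ≤ ε),
    (∃ μ : Approximable, Atomless (μ.1 : Measure UnitAddCircle) ∧
      HasRationalSpectrum (μ.1 : Measure UnitAddCircle)),
    (∃ μ : Approximable, Atomless (μ.1 : Measure UnitAddCircle) ∧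
      HasDiscreteSpectrum (μ.1 : Measure UnitAddCircle)),
    (∃ μ : Approximable, Atomless (μ.1 : Measure UnitAddCircle) ∧
      Rigid (μ.1 : Measure UnitAddCircle)),
    (∃ μ : Approximable, Atomless (μ.1 : Measure UnitAddCircle) ∧
      LargeCoefficients (μ.1 : Measure UnitAddCircle)),
    {μ : Approximable | Atomless (μ.1 : Measure UnitAddCircle) ∧
      (μ.1 : Measure UnitAddCircle) ≠ volume ∧
        StronglyRigid (μ.1 : Measure UnitAddCircle)} ∈ residual Approximable] := by
  have key := Pool.Agent.H266.FD.approximable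
  have h1 : Pool.Agent.H635F.NoGapOrb ↔ (∀ ε : ℝ, 0 < ε → ∃ (x : UnitAddCircle) (N M : ℕ),
      Periodic x N M ∧ x ≠ 0 ∧ orbitAverage x N M (fun y => ‖y‖) ≤ ε) := by
    constructor
    · intro H ε hε
      obtain ⟨x, N, M, hN, hM, h2, h3, hx, h⟩ := H ε hε
      exact ⟨x, N, M, ⟨hN, hM, h2, h3⟩, hx, h⟩
    · intro H ε hε
      obtain ⟨x, N, M, ⟨hN, hM, h2, h3⟩, hx, h⟩ := H ε hε
      exact ⟨x, N, M, hN, hM, h2, h3, hx, h⟩
  rw [← h1]
  exact key

end Pool.Agent.Results.MP_e27144_an.DiscreteSpectrum
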