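import Mathlib
import Pool.Agent.H237.Primes.Final

/-!
# Measures invariant under multiplication by all primes up to `y`, down to triple exponential scales

Let `μ` be any probability measure on the circle (atoms are allowed, no ergodicity, no entropy)
which is invariant under `x ↦ q x` for all primes `q ≤ y`, and `X = exp (exp (exp (c y / log y)))`.
We prove that every Fourier coefficient `μ^(n)` is, up to `C y ^ (-1/50)`, the mass of the set of
the points `x` with `‖n x‖ < 1 / X`: apart from the mass which is within `1 / X` of zero, the image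
of `μ` under `x ↦ n x` is uniformly distributed.  For the points of order at most `X` the
exceptional mass is zero.  So the subgroup of `(ℤ / N)ˣ` generated by the primes up to `y` is
uniformly distributed as soon as `N ≤ X`, that is, already for `y` of the order of
`(log log log N) (log log log log N)`.

Proof.  1. The masses of the annuli `1 / y ≤ ‖x‖ ≤ y ^ (-δ)` are small, because the first `y`
coefficients are equal (a Fejér kernel argument).  2. At smaller scales `‖x‖ ≈ exp (-2 H)` many
pairwise coprime multipliers `u ≈ exp H` (powers of primes) give many translates of a small ball;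
a packing argument for the fractions with the denominators `∏ u` bounds the mass of an annulus
by a small multiple of the mass of a longer annulus plus an exponentially small term in the
number of multipliers (files `Pool.Agent.H237.Gap`).  3. This is summed over the scales; there are
`log log X` of them, which is less than an exponential in the number of primes.
-/

namespace Pool.Agent.Results.MP_e27144_an.SmallPrimesEquidistribute

open MeasureTheory Set Filter Topology Pool.Agent.H237.Primes

/-- **Equidistribution of the measures invariant under all small primes.** There are `c, C > 0`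
such that for all `y ≥ 2`, with `X = exp (exp (exp (c y / log y)))`: (1) for every probability
measure `μ` on the circle invariant under `x ↦ q x` for all primes `q ≤ y` and every integer `n`,
the Fourier coefficient `μ^(n)` differs by at most `C y ^ (-1/50)` from the mass of the set of the
points `x` with `‖n x‖ < 1 / X`; (2) for every `N ≤ X`, every subgroup `H` of `(ℤ / N)ˣ` which
contains the classes of all primes `q ≤ y` and every `a ≢ 0` modulo `N` the sum of
`e (a h / N)` over `H` is at most `C y ^ (-1/50) |H|` in absolute value. -/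
theorem result : ∃ c C : ℝ, 0 < c ∧ 0 < C ∧ ∀ y : ℕ, 2 ≤ y →
    (∀ μ : Measure UnitAddCircle, IsProbabilityMeasure μ →
      (∀ q : ℕ, q.Prime → q ≤ y → MeasurePreserving (fun x : UnitAddCircle => q • x) μ μ) →
      ∀ n : ℤ, ‖(∫ x, (fourier n x : ℂ) ∂μ) - (μ.real {x | ‖n • x‖ <
        1 / Real.exp (Real.exp (Real.exp (c * (y / Real.log y))))} : ℂ)‖ ≤
          C * (y : ℝ) ^ (-(1 / 50) : ℝ)) ∧
    (∀ N : ℕ, ∀ _ : NeZero N, (N : ℝ) ≤ Real.exp (Real.exp (Real.exp (c * (y / Real.log y)))) →
      ∀ H : Subgroup (ZMod N)ˣ, ∀ _ : Fintype H,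
      (∀ q : ℕ, q.Prime → q ≤ y → ∃ h ∈ H, ((h : (ZMod N)ˣ) : ZMod N) = q) →
      ∀ a : ZMod N, a ≠ 0 →
      ‖∑ h : H, ZMod.stdAddChar (a * ((h : (ZMod N)ˣ) : ZMod N))‖ ≤
        C * (y : ℝ) ^ (-(1 / 50) : ℝ) * Fintype.card H) := by
  obtain ⟨y₀, hy₀⟩ := eventually_atTop.mp eventually_good
  set Y : ℝ := max (y₀ : ℝ) 2 with hY
  have hY2 : 2 ≤ Y := le_max_right _ _
  have hY0 : 0 < Y := by linarith
  set C : ℝ := 200 + 2 * Y ^ ((1 / 50) : ℝ) with hC
  have hC0 : 0 < C := by positivity
  refine ⟨1 / 1000, C, by norm_num, hC0, ?_⟩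
  intro y hy
  have hyR : (2 : ℝ) ≤ y := by exact_mod_cast hy
  have hy0 : (0 : ℝ) < y := by linarith
  have hypow : 0 < (y : ℝ) ^ (-(1 / 50) : ℝ) := by positivity
  have hsmall : ¬ y₀ ≤ y → 2 ≤ C * (y : ℝ) ^ (-(1 / 50) : ℝ) := by
    intro h
    have h1 : (y : ℝ) ≤ Y := by
      refine le_trans ?_ (le_max_left _ _)
      exact_mod_cast (by omega : y ≤ y₀)
    have h2 : Y ^ (-(1 / 50) : ℝ) ≤ (y : ℝ) ^ (-(1 / 50) : ℝ) :=
      Real.rpow_le_rpow_of_nonpos hy0 h1 (by norm_num)
    have h3 : Y ^ ((1 / 50) : ℝ) * Y ^ (-(1 / 50) : ℝ) = 1 := by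
      rw [← Real.rpow_add hY0]
      norm_num
    have h4 : 0 < Y ^ ((1 / 50) : ℝ) := by positivity
    calc (2 : ℝ) = 2 * (Y ^ ((1 / 50) : ℝ) * Y ^ (-(1 / 50) : ℝ)) := by rw [h3]; ring
      _ ≤ 2 * (Y ^ ((1 / 50) : ℝ) * (y : ℝ) ^ (-(1 / 50) : ℝ)) := by gcongr
      _ ≤ C * (y : ℝ) ^ (-(1 / 50) : ℝ) := by rw [hC]; nlinarith
  have hbig : 200 * (y : ℝ) ^ (-(1 / 50) : ℝ) ≤ C * (y : ℝ) ^ (-(1 / 50) : ℝ) := by
    apply mul_le_mul_of_nonneg_right _ hypow.le
    rw [hC]
    have : 0 < Y ^ ((1 / 50) : ℝ) := by positivity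
    linarith
  refine ⟨?_, ?_⟩
  · intro μ hμ hinv n
    by_cases hyy : y₀ ≤ y
    · exact le_trans (coeff_dilate (hy₀ y hyy) μ hinv n) hbig
    · refine le_trans ?_ (hsmall hyy)
      have h1 : ‖∫ x, (fourier n x : ℂ) ∂μ‖ ≤ 1 := by
        calc ‖∫ x, (fourier n x : ℂ) ∂μ‖ ≤ ∫ x, ‖(fourier n x : ℂ)‖ ∂μ :=
              norm_integral_le_integral_norm _
          _ = 1 := by simp only [norm_fourier_one]; simp
      have h2 : ∀ s : Set UnitAddCircle, ‖(μ.real s : ℂ)‖ ≤ 1 := by
        intro s
        rw [Complex.norm_real, Real.norm_of_nonneg measureReal_nonneg]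
        exact measureReal_le_one
      refine le_trans (norm_sub_le _ _) ?_
      have := h2 {x | ‖n • x‖ < 1 / Real.exp (Real.exp (Real.exp (1 / 1000 * (y / Real.log y))))}
      linarith
  · intro N hNe hN H hF hH a ha
    by_cases hyy : y₀ ≤ y
    · refine le_trans (subgroup_sum (hy₀ y hyy) hN H hH ha) ?_
      exact mul_le_mul_of_nonneg_right hbig (by positivity)
    · have h1 : ‖∑ h : H, ZMod.stdAddChar (a * ((h : (ZMod N)ˣ) : ZMod N))‖ ≤ Fintype.card H := by
        refine le_trans (norm_sum_le _ _) ?_
        have : ∀ h : H, ‖ZMod.stdAddChar (a * ((h : (ZMod N)ˣ) : ZMod N))‖ = 1 := by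
          intro h
          rw [ZMod.stdAddChar_apply]
          exact Circle.norm_coe _
        simp [this]
      refine le_trans h1 ?_
      have h2 := hsmall hyy
      have h3 : (0 : ℝ) ≤ Fintype.card H := by positivity
      nlinarith

end Pool.Agent.Results.MP_e27144_an.SmallPrimesEquidistribute
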