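import Mathlib
import Pool.Agent.H237.Digits.Final

/-!
# Measures invariant under multiplication by `2`, `2 ^ i - 1` and `2 ^ i ± 2 ^ j ± 1`

Fix two signs `σ, τ`.  We prove Furstenberg's conjecture for the probability measures which are
invariant, besides `x ↦ 2 x` and `x ↦ 3 x`, under the multiplications by `2 ^ i - 1` and by
`2 ^ i + σ 2 ^ j + τ` (`1 ≤ j < i`): an atomless measure of this kind is Lebesgue measure, with no
assumption on ergodicity or entropy.  The result is effective and holds with finitely many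
multipliers: if only the multipliers with `i ≤ K` are used then, for every probability measure
(atoms are allowed) and every integer `n`, the Fourier coefficient `μ^(n)` is, up to
`C K ^ (-1/50)`, the mass of the points `x` with `‖n x‖ < 1 / X`, where
`X = exp (exp (exp (c K / log K)))`; and the subgroups of `(ℤ / N)ˣ` which contain the classes of
these `O(K ^ 2)` integers are equidistributed if `N ≤ X`.

Proof.  1. The correlations of the functions `e (2 ^ i x)`, `i ≤ K`, are all equal to the first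
coefficient `c`, and so are their triple correlations (with signs).  So the averages `A` over
disjoint blocks of `i` are close to each other in `L²` and `∫ |A|² ≈ ∫ A ≈ ∫ A A^σ A^τ ≈ c`, where
`A^- ` is the complex conjugate; as `|A| ≤ 1` this forces `A` to be close to `0` or `1` almost
everywhere.  If `A (x)` is close to `1` then `2 ^ i x` is very close to `0` for most `i`, so that
`c` is nearly the mass of a small ball.  2. The masses of the annuli `1 / X ≤ ‖x‖ ≤ 2 ^ (-t)` are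
small, by the packing arguments of `Pool.Agent.H237.Gap` for the pairwise coprime multipliers
`2 ^ p - 1`, `p ≤ K` prime.
-/

namespace Pool.Agent.Results.MP_e27144_an.ThreeDigitMultipliers

open MeasureTheory Set Filter Topology Pool.Agent.H237.Digits Pool.Agent.H237.Primes

/-- The multipliers `2`, `2 ^ i - 1` and `2 ^ i + σ 2 ^ j + τ` with `i ≤ K`. -/
def Multipliers (σ τ : ℤ) (K : ℕ) : Set ℕ :=
  {m | m = 2 ∨ (∃ i, 2 ≤ i ∧ i ≤ K ∧ m = 2 ^ i - 1) ∨
    ∃ i j, 1 ≤ j ∧ j < i ∧ i ≤ K ∧ (m : ℤ) = 2 ^ i + σ * 2 ^ j + τ}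

/-- `μ` is invariant under `x ↦ m x` for all `m ∈ P`. -/
def Invariant (P : Set ℕ) (μ : Measure UnitAddCircle) : Prop :=
  ∀ m ∈ P, MeasurePreserving (fun x : UnitAddCircle => m • x) μ μ

lemma hyp_of {σ τ : ℤ} (hσ : σ = 1 ∨ σ = -1) (hτ : τ = 1 ∨ τ = -1) {K : ℕ}
    {μ : Measure UnitAddCircle} (h : Invariant (Multipliers σ τ K) μ) : Hyp μ K σ τ :=
  ⟨hσ, hτ, h 2 (Or.inl rfl), fun i h1 h2 => h _ (Or.inr (Or.inl ⟨i, h1, h2, rfl⟩)),
    fun i j h1 h2 h3 m hm => h m (Or.inr (Or.inr ⟨i, j, h1, h2, h3, hm⟩))⟩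

/-- **Multipliers `2`, `2 ^ i - 1` and `2 ^ i ± 2 ^ j ± 1`.** There are `c, C > 0` such that for all
signs `σ, τ`: (1) for all `K ≥ 2`, with `X = exp (exp (exp (c K / log K)))`, every probability
measure `μ` on the circle invariant under the multipliers `2`, `2 ^ i - 1`, `2 ^ i + σ 2 ^ j + τ`
(`1 ≤ j < i ≤ K`) and every integer `n`, the coefficient `μ^(n)` differs by at most
`C K ^ (-1/50)` from the mass of the set of the `x` with `‖n x‖ < 1 / X`; (2) for every
`N ≤ X`, every subgroup `H` of `(ℤ / N)ˣ` containing the classes of these multipliers and every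
`a ≢ 0` modulo `N` the sum of `e (a h / N)` over `H` is at most `C K ^ (-1/50) |H|` in absolute
value; (3) if `μ` is invariant under these multipliers for all `K` then `μ^(n) = μ {x : n x = 0}`
for all `n`; (4) if moreover `μ` is atomless then it is Lebesgue measure. -/
theorem result : ∃ c C : ℝ, 0 < c ∧ 0 < C ∧
    ∀ σ τ : ℤ, (σ = 1 ∨ σ = -1) → (τ = 1 ∨ τ = -1) →
    (∀ K : ℕ, 2 ≤ K →
      (∀ μ : Measure UnitAddCircle, IsProbabilityMeasure μ → Invariant (Multipliers σ τ K) μ →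
        ∀ n : ℤ, ‖(∫ x, (fourier n x : ℂ) ∂μ) - (μ.real {x | ‖n • x‖ <
          1 / Real.exp (Real.exp (Real.exp (c * (K / Real.log K))))} : ℂ)‖ ≤
            C * (K : ℝ) ^ (-(1 / 50) : ℝ)) ∧
      (∀ N : ℕ, ∀ _ : NeZero N, (N : ℝ) ≤ Real.exp (Real.exp (Real.exp (c * (K / Real.log K)))) →
        ∀ H : Subgroup (ZMod N)ˣ, ∀ _ : Fintype H,
        (∀ m ∈ Multipliers σ τ K, ∃ h ∈ H, ((h : (ZMod N)ˣ) : ZMod N) = m) →
        ∀ a : ZMod N, a ≠ 0 →
        ‖∑ h : H, ZMod.stdAddChar (a * ((h : (ZMod N)ˣ) : ZMod N))‖ ≤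
          C * (K : ℝ) ^ (-(1 / 50) : ℝ) * Fintype.card H)) ∧
    (∀ μ : Measure UnitAddCircle, IsProbabilityMeasure μ →
      (∀ K, Invariant (Multipliers σ τ K) μ) →
      (∀ n : ℤ, ∫ x, (fourier n x : ℂ) ∂μ = (μ.real {x | n • x = 0} : ℂ)) ∧
      ((∀ x, μ {x} = 0) → μ = volume)) := by
  obtain ⟨y₀, hy₀⟩ := eventually_atTop.mp first_coeff
  set Y : ℝ := max (y₀ : ℝ) 2 with hY
  have hY2 : 2 ≤ Y := le_max_right _ _
  have hY0 : 0 < Y := by linarith
  set C : ℝ := 3030 + 2 * Y ^ ((1 / 50) : ℝ) with hC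
  have hC0 : 0 < C := by positivity
  have hsmall : ∀ K : ℕ, 2 ≤ K → ¬ y₀ ≤ K → 2 ≤ C * (K : ℝ) ^ (-(1 / 50) : ℝ) := by
    intro K hK h
    have hKR : (2 : ℝ) ≤ K := by exact_mod_cast hK
    have hK0 : (0 : ℝ) < K := by linarith
    have h1 : (K : ℝ) ≤ Y := by
      refine le_trans ?_ (le_max_left _ _)
      exact_mod_cast (by omega : K ≤ y₀)
    have h2 : Y ^ (-(1 / 50) : ℝ) ≤ (K : ℝ) ^ (-(1 / 50) : ℝ) :=
      Real.rpow_le_rpow_of_nonpos hK0 h1 (by norm_num)
    have h3 : Y ^ ((1 / 50) : ℝ) * Y ^ (-(1 / 50) : ℝ) = 1 := by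
      rw [← Real.rpow_add hY0]
      norm_num
    have h4 : 0 < Y ^ ((1 / 50) : ℝ) := by positivity
    have h5 : 0 < (K : ℝ) ^ (-(1 / 50) : ℝ) := by positivity
    calc (2 : ℝ) = 2 * (Y ^ ((1 / 50) : ℝ) * Y ^ (-(1 / 50) : ℝ)) := by rw [h3]; ring
      _ ≤ 2 * (Y ^ ((1 / 50) : ℝ) * (K : ℝ) ^ (-(1 / 50) : ℝ)) := by gcongr
      _ ≤ C * (K : ℝ) ^ (-(1 / 50) : ℝ) := by rw [hC]; nlinarith
  have hint : ∀ (μ : Measure UnitAddCircle) [IsProbabilityMeasure μ] (n : ℤ),
      ‖∫ x, (fourier n x : ℂ) ∂μ‖ ≤ 1 := by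
    intro μ _ n
    calc ‖∫ x, (fourier n x : ℂ) ∂μ‖ ≤ ∫ x, ‖(fourier n x : ℂ)‖ ∂μ :=
          norm_integral_le_integral_norm _
      _ = 1 := by simp only [norm_fourier_one]; simp
  have hreal : ∀ (μ : Measure UnitAddCircle) [IsProbabilityMeasure μ] (s : Set UnitAddCircle),
      ‖(μ.real s : ℂ)‖ ≤ 1 := by
    intro μ _ s
    rw [Complex.norm_real, Real.norm_of_nonneg measureReal_nonneg]
    exact measureReal_le_one
  have hBd : ∀ K : ℕ, 2 ≤ K → Bd K C := by
    intro K hK ν _ σ τ hyp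
    have hKR : (2 : ℝ) ≤ K := by exact_mod_cast hK
    have hKpow : 0 < (K : ℝ) ^ (-(1 / 50) : ℝ) := by positivity
    by_cases hyy : y₀ ≤ K
    · refine le_trans (hy₀ K hyy ν σ τ hyp) ?_
      apply mul_le_mul_of_nonneg_right _ hKpow.le
      rw [hC]
      have : 0 < Y ^ ((1 / 50) : ℝ) := by positivity
      linarith
    · refine le_trans ?_ (hsmall K hK hyy)
      refine le_trans (norm_sub_le _ _) ?_
      have h1 := hint ν 1
      have h2 := hreal ν {x | ‖x‖ < 1 / H237.Digits.X K}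
      unfold H237.Gap.g
      linarith
  refine ⟨1 / 1000, C, by norm_num, hC0, ?_⟩
  intro σ τ hσ hτ
  refine ⟨?_, ?_⟩
  · intro K hK
    refine ⟨?_, ?_⟩
    · intro μ hμ hinv n
      exact coeff_all (hBd K hK) μ (hyp_of hσ hτ hinv) n
    · intro N hNe hN H hF hH a ha
      refine subgroup_sum' (hBd K hK) hN H hσ hτ ?_ ?_ ?_ ha
      · obtain ⟨h, h1, h2⟩ := hH 2 (Or.inl rfl)
        exact ⟨h, h1, by simpa using h2⟩
      · intro i h1 h2
        obtain ⟨h, h3, h4⟩ := hH _ (Or.inr (Or.inl ⟨i, h1, h2, rfl⟩))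
        refine ⟨h, h3, ?_⟩
        rw [h4]
        have : 1 ≤ 2 ^ i := Nat.one_le_two_pow
        push_cast [Nat.cast_sub this]
        rfl
      · intro i j h1 h2 h3
        have hpos : 0 ≤ (2 : ℤ) ^ i + σ * 2 ^ j + τ := by
          have a1 : (2 : ℤ) ^ (j + 1) ≤ 2 ^ i := pow_le_pow_right₀ (by norm_num) (by omega)
          have a2 : (2 : ℤ) ^ 1 ≤ 2 ^ j := pow_le_pow_right₀ (by norm_num) h1
          rw [pow_succ] at a1
          rcases hσ with rfl | rfl <;> rcases hτ with rfl | rfl <;> linarith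
        obtain ⟨m, hm⟩ := Int.eq_ofNat_of_zero_le hpos
        obtain ⟨h, h4, h5⟩ := hH m (Or.inr (Or.inr ⟨i, j, h1, h2, h3, hm.symm⟩))
        refine ⟨h, h4, ?_⟩
        rw [h5]
        have : (((2 : ℤ) ^ i + σ * 2 ^ j + τ : ℤ) : ZMod N) = (((m : ℤ)) : ZMod N) := by rw [hm]
        push_cast at this
        exact this.symm
  · intro μ hμ hinv
    have hlim := limit hBd fun K => hyp_of hσ hτ (hinv K)
    refine ⟨hlim, ?_⟩
    intro hat
    apply eq_volume
    intro n hn
    rw [hlim n]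
    have hfin := H237.Gap.ztorsion_finite hn
    have : NullSingletonClass μ := ⟨hat⟩
    have h0 : μ {x : UnitAddCircle | n • x = 0} = 0 := hfin.measure_zero μ
    rw [Measure.real, h0]
    simp

end Pool.Agent.Results.MP_e27144_an.ThreeDigitMultipliers
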