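import Mathlib
import Pool.Agent.H632.FU.Main

/-!
# Furstenberg's conjecture is equivalent to a uniform minorant for ALL invariant measures

Let `S` be a set of positive integers which contains some `p ≥ 2` (for the conjecture
`S = {2, 3}`).  A probability measure on the circle is `S`-invariant if it is invariant under
`x ↦ s x` for all `s ∈ S`; no ergodicity and no entropy is assumed.  `SmallOrder Q` is the finite
set of the points of order at most `Q`.

1. Lebesgue measure is the only atomless `S`-invariant probability measure if and only if there is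
   ONE constant `c > 0` such that for every open set `U` there is `Q` with
   `μ (U \ SmallOrder Q) ≥ c |U| μ (T \ SmallOrder Q)` for ALL `S`-invariant probability measures
   `μ`, atoms allowed.  So the conjecture, a statement on atomless measures, is equivalent to a
   statement which contains: every finite set `O` permuted by the `x ↦ s x` has at least the
   proportion `c |U|` of its points of order `> Q` in `U` (part 2).
3. If `S` contains two multiplicatively independent integers then the following statements, which
   are weaker than the conjecture, are equivalent: the atomless `S`-invariant probability measures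
   are not weak-* dense in all the `S`-invariant ones; the point mass at `0` is not a limit of
   atomless ones; `μ {‖x‖ > r} ≥ c μ {x ≠ 0}` for all invariant `μ`, for some `r, c > 0`; every
   nonempty open set has uniformly positive mass, up to points of small order, for all the invariant
   measures; the same for the atomless ones.  They imply a uniform positive proportion of the points
   in `U` for all the finite invariant sets.

Proof.  If a sequence of invariant measures without mass at `0` tends to the point mass at `0` fast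
enough, its infinite convolution is atomless, invariant and still close to the point mass at `0`;
this transfers the gap from the atomless measures to all.  A weak limit of invariant measures which
do not charge the points of order at most `Q`, `Q → ∞`, then has mass at least `c` off its atoms,
as is seen from the images under `x ↦ N! x`.  The converse is a bootstrap: a common minorant
`c λ` of all the atomless invariant measures improves to `(1 - (1 - c) ^ n) λ`.
-/

namespace Pool.Agent.Results.MP_e27144_an.UniformMinorant

open MeasureTheory Set Filter Topology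

/-- `μ` is a probability measure invariant under `x ↦ s x` for all `s ∈ S`. -/
def Invariant (S : Set ℕ) (μ : Measure UnitAddCircle) : Prop :=
  IsProbabilityMeasure μ ∧ ∀ s ∈ S, MeasurePreserving (fun x : UnitAddCircle => s • x) μ μ

/-- `μ` has no atoms. -/
def Atomless (μ : Measure UnitAddCircle) : Prop := ∀ x, μ {x} = 0

/-- The points of order at most `Q`. -/
def SmallOrder (Q : ℕ) : Set UnitAddCircle := {x | ∃ m : ℕ, 1 ≤ m ∧ m ≤ Q ∧ m • x = 0}

/-- The finite set `O` is permuted by `x ↦ s x` for all `s ∈ S`. -/
def InvariantSet (S : Set ℕ) (O : Finset UnitAddCircle) : Prop :=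
  ∀ s ∈ S, O.image (fun x : UnitAddCircle => s • x) = O

/-- The atomless `S`-invariant probability measures. -/
def AtomlessInvariant (S : Set ℕ) : Set (ProbabilityMeasure UnitAddCircle) :=
  {ν | Invariant S (ν : Measure UnitAddCircle) ∧ Atomless (ν : Measure UnitAddCircle)}

/-- The point mass at `0`. -/
noncomputable def pointMass : ProbabilityMeasure UnitAddCircle :=
  ⟨Measure.dirac (0 : UnitAddCircle), inferInstance⟩

/-- **Furstenberg's conjecture and the uniform minorant.** -/
theorem result :
    -- 1. rigidity is equivalent to a uniform minorant for all invariant measures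
    (∀ S : Set ℕ, (∀ s ∈ S, 1 ≤ s) → (∃ p ∈ S, 2 ≤ p) →
      ((∀ μ : Measure UnitAddCircle, Invariant S μ → Atomless μ → μ = volume) ↔
        ∃ c : ℝ, 0 < c ∧ ∀ U : Set UnitAddCircle, IsOpen U → ∃ Q : ℕ,
          ∀ μ : Measure UnitAddCircle, Invariant S μ →
            c * (volume : Measure UnitAddCircle).real U * μ.real (SmallOrder Q)ᶜ ≤
              μ.real (U \ SmallOrder Q))) ∧
    -- 2. consequence for finite invariant sets
    (∀ S : Set ℕ, (∀ s ∈ S, 1 ≤ s) → (∃ p ∈ S, 2 ≤ p) →
      (∀ μ : Measure UnitAddCircle, Invariant S μ → Atomless μ → μ = volume) →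
        ∃ c : ℝ, 0 < c ∧ ∀ U : Set UnitAddCircle, IsOpen U → ∃ Q : ℕ,
          ∀ O : Finset UnitAddCircle, InvariantSet S O →
            c * (volume : Measure UnitAddCircle).real U *
                ((O : Set UnitAddCircle) \ SmallOrder Q).ncard ≤
              (((O : Set UnitAddCircle) ∩ U) \ SmallOrder Q).ncard) ∧
    -- 3. the gap, non-density of the atomless measures, uniform positive mass
    (∀ S : Set ℕ, ∀ p ∈ S, ∀ q ∈ S, 2 ≤ p → 2 ≤ q →
      Irrational (Real.log (p : ℝ) / Real.log (q : ℝ)) →
      List.TFAE [
        ∃ ρ : ProbabilityMeasure UnitAddCircle, Invariant S (ρ : Measure UnitAddCircle) ∧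
          ρ ∉ closure (AtomlessInvariant S),
        pointMass ∉ closure (AtomlessInvariant S),
        ∃ r c : ℝ, 0 < r ∧ 0 < c ∧ ∀ μ : Measure UnitAddCircle, Invariant S μ →
          c * μ.real {0}ᶜ ≤ μ.real {x | r < ‖x‖},
        ∀ U : Set UnitAddCircle, IsOpen U → U.Nonempty → ∃ c : ℝ, 0 < c ∧ ∃ Q : ℕ,
          ∀ μ : Measure UnitAddCircle, Invariant S μ →
            c * μ.real (SmallOrder Q)ᶜ ≤ μ.real (U \ SmallOrder Q),
        ∀ U : Set UnitAddCircle, IsOpen U → U.Nonempty → ∃ c : ℝ, 0 < c ∧
          ∀ μ : Measure UnitAddCircle, Invariant S μ → Atomless μ → c ≤ μ.real U]) ∧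
    -- and its consequence for finite invariant sets
    (∀ S : Set ℕ, ∀ p ∈ S, ∀ q ∈ S, 2 ≤ p → 2 ≤ q →
      Irrational (Real.log (p : ℝ) / Real.log (q : ℝ)) →
      pointMass ∉ closure (AtomlessInvariant S) →
        ∀ U : Set UnitAddCircle, IsOpen U → U.Nonempty → ∃ c : ℝ, 0 < c ∧ ∃ Q : ℕ,
          ∀ O : Finset UnitAddCircle, InvariantSet S O →
            c * ((O : Set UnitAddCircle) \ SmallOrder Q).ncard ≤
              (((O : Set UnitAddCircle) ∩ U) \ SmallOrder Q).ncard) := by
  have hgap : ∀ S : Set ℕ, ∀ p ∈ S, ∀ q ∈ S, 2 ≤ p → 2 ≤ q →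
      Irrational (Real.log (p : ℝ) / Real.log (q : ℝ)) → H632.FU.Gap S p →
      ∀ U : Set UnitAddCircle, IsOpen U → U.Nonempty → ∃ c : ℝ, 0 < c ∧ ∃ Q : ℕ,
        ∀ μ : Measure UnitAddCircle, Invariant S μ →
          c * μ.real (SmallOrder Q)ᶜ ≤ μ.real (U \ SmallOrder Q) := by
    intro S p hpS q hqS hp hq hirr h U hU hne
    exact H632.FU.open_of_gap hp hq hpS hqS hirr h hU hne
  refine ⟨?_, ?_, ?_, ?_⟩
  · rintro S hS ⟨p, hpS, hp⟩
    exact H632.FU.rigid_iff hS hp hpS
  · rintro S hS ⟨p, hpS, hp⟩ hR
    obtain ⟨c, hc, h⟩ := (H632.FU.rigid_iff hS hp hpS).1 hR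
    refine ⟨c, hc, fun U hU => ?_⟩
    obtain ⟨Q, hQ⟩ := h U hU
    exact ⟨Q, fun O hO => H632.FU.finset_of (S := S) hU.measurableSet hQ O hO⟩
  · intro S p hpS q hqS hp hq hirr
    have hp0 : (0 : ℝ) < p := by exact_mod_cast (by omega : 0 < p)
    tfae_have 1 → 3 := by
      intro h
      obtain ⟨c, hc, h1⟩ := H632.FU.gap_of_not_dense hp hpS h
      exact ⟨1 / (2 * (p : ℝ)), c, by positivity, hc, h1⟩
    tfae_have 3 → 2 := by
      rintro ⟨r, c, hr, hc, h⟩
      refine H632.FU.dirac_of_far hr hc fun μ hμ h0 => ?_
      have := hμ.1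
      have h1 := h μ hμ
      rw [H632.FU.atomless_zero h0, mul_one] at h1
      exact h1.trans (measureReal_mono fun x (hx : r < ‖x‖) => hx.le)
    tfae_have 2 → 1 := by
      intro h
      exact ⟨pointMass, H632.FU.Inv_dirac0 S, h⟩
    tfae_have 1 → 4 := by
      intro h
      exact hgap S p hpS q hqS hp hq hirr (H632.FU.gap_of_not_dense hp hpS h)
    tfae_have 4 → 5 := by
      intro h U hU hne
      obtain ⟨c, hc, Q, hQ⟩ := h U hU hne
      refine ⟨c, hc, fun μ hμ h0 => ?_⟩
      have := hμ.1
      have h1 := hQ μ hμ
      change c * μ.real (H632.FU.Sm Q)ᶜ ≤ μ.real (U \ H632.FU.Sm Q) at h1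
      rw [H632.FU.atomless_compl h0, H632.FU.atomless_diff h0, mul_one] at h1
      exact h1
    tfae_have 5 → 3 := by
      intro h
      obtain ⟨c, hc, h1⟩ := h _ (TH741.FU.isOpen_A p) (TH741.FU.A_nonempty hp)
      obtain ⟨c', hc', h2⟩ := H632.FU.transfer hp hpS hc h1
      exact ⟨1 / (2 * (p : ℝ)), c', by positivity, hc', h2⟩
    tfae_finish
  · intro S p hpS q hqS hp hq hirr hd U hU hne
    obtain ⟨c, hc, Q, hQ⟩ := hgap S p hpS q hqS hp hq hirr
      (H632.FU.gap_of_not_dense hp hpS ⟨pointMass, H632.FU.Inv_dirac0 S, hd⟩) U hU hne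
    exact ⟨c, hc, Q, fun O hO => H632.FU.finset_of (S := S) hU.measurableSet hQ O hO⟩

end Pool.Agent.Results.MP_e27144_an.UniformMinorant
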